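import Mathlib
import Pool.Agent.T9h11.NF.Spec2

/-!
# Absorbers: logarithmic coordinates, `LatLog`
-/

set_option autoImplicit false
set_option linter.unusedSectionVars false

namespace Pool.Agent.T9h47.NF

open Finset NumberField Pool.Agent.T9h11.NF

variable {K : Type} [Field K] [NumberField K]

/-- the log vectors of the absorber -/
noncomputable def lv (a : Absb K) (i v : InfinitePlace K) : ℝ := Real.log (v (a.e i : K))

/-- the log vector of a point -/
noncomputable def lz (z : Sp K) (v : InfinitePlace K) : ℝ := Real.log ‖z v‖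

theorem norm_E (x : K) (v : InfinitePlace K) : ‖E x v‖ = v x := by
  show ‖v.embedding x‖ = v x
  exact InfinitePlace.norm_embedding_eq v x

theorem el_ne (a : Absb K) (k : InfinitePlace K → ℤ) : a.el k ≠ 0 := by
  unfold Absb.el
  rw [prod_ne_zero_iff]
  intro i _
  apply zpow_ne_zero
  intro h
  exact a.ne i (RingOfIntegers.coe_eq_zero_iff.1 h)

theorem E_ne {x : K} (hx : x ≠ 0) (v : InfinitePlace K) : E x v ≠ 0 := by
  rw [← norm_ne_zero_iff, norm_E]
  exact (map_ne_zero v).2 hx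

theorem log_el (a : Absb K) (k : InfinitePlace K → ℤ) (v : InfinitePlace K) :
    Real.log (v (a.el k)) = ∑ i, (k i : ℝ) * lv a i v := by
  unfold Absb.el
  rw [map_prod, Real.log_prod (by
    intro i _
    rw [map_zpow₀]
    apply zpow_ne_zero
    rw [map_ne_zero]
    intro h
    exact a.ne i (RingOfIntegers.coe_eq_zero_iff.1 h))]
  refine sum_congr rfl fun i _ => ?_
  rw [map_zpow₀, Real.log_zpow]
  rfl

theorem lz_mul (a : Absb K) (k : InfinitePlace K → ℤ) (z : Sp K) (hz : ∀ v, z v ≠ 0) :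
    lz (E (a.el k) * z) = (∑ i, (k i : ℝ) • lv a i) + lz z := by
  funext v
  show Real.log ‖E (a.el k) v * z v‖ = _
  rw [norm_mul, norm_E, Real.log_mul ((map_ne_zero v).2 (el_ne a k)) (norm_ne_zero_iff.2 (hz v)),
    log_el, Pi.add_apply, Finset.sum_apply]
  rfl

/-- the coordinates in the basis of the log vectors -/
theorem exists_coord (a : Absb K) : ∃ (T : (InfinitePlace K → ℝ) →ₗ[ℝ] (InfinitePlace K → ℝ))
    (C : ℝ), 0 ≤ C ∧ (∀ x : InfinitePlace K → ℝ, T (∑ i, x i • lv a i) = x) ∧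
    (∀ y : InfinitePlace K → ℝ, ∑ i, T y i • lv a i = y) ∧ ∀ y, ‖T y‖ ≤ C * ‖y‖ := by
  classical
  have hli : LinearIndependent ℝ (lv a) := a.reg
  have hcard : Fintype.card (InfinitePlace K) = Module.finrank ℝ (InfinitePlace K → ℝ) := by
    rw [Module.finrank_fintype_fun_eq_card]
  obtain ⟨b, hb⟩ : ∃ b : Module.Basis (InfinitePlace K) ℝ (InfinitePlace K → ℝ), ⇑b = lv a :=
    ⟨basisOfLinearIndependentOfCardEqFinrank hli hcard,
      coe_basisOfLinearIndependentOfCardEqFinrank hli hcard⟩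
  refine ⟨(b.equivFun : (InfinitePlace K → ℝ) →ₗ[ℝ] (InfinitePlace K → ℝ)),
    ‖(b.equivFun : (InfinitePlace K → ℝ) →ₗ[ℝ] (InfinitePlace K → ℝ)).toContinuousLinearMap‖,
    norm_nonneg _, ?_, ?_, ?_⟩
  · intro x
    show b.equivFun (∑ i, x i • lv a i) = x
    rw [← hb, ← b.equivFun_symm_apply, LinearEquiv.apply_symm_apply]
  · intro y
    show ∑ i, b.equivFun y i • lv a i = y
    rw [← hb]
    exact b.sum_equivFun y
  · intro y
    exact ((b.equivFun : (InfinitePlace K → ℝ) →ₗ[ℝ]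
      (InfinitePlace K → ℝ)).toContinuousLinearMap).le_opNorm y

/-- sets of integer vectors of bounded diameter -/
theorem box {ι : Type} [Fintype ι] [DecidableEq ι] (T : Set (ι → ℤ)) (R : ℕ)
    (h : ∀ k ∈ T, ∀ k' ∈ T, ∀ i, |k i - k' i| ≤ R) :
    T.Finite ∧ ∀ S : Finset (ι → ℤ), (∀ k ∈ S, k ∈ T) → S.card ≤ (2 * R + 1) ^ Fintype.card ι := by
  rcases T.eq_empty_or_nonempty with rfl | ⟨k₀, hk₀⟩
  · refine ⟨Set.finite_empty, fun S hS => ?_⟩
    have : S = ∅ := eq_empty_of_forall_notMem (fun k hk => hS k hk)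
    rw [this, card_empty]
    exact Nat.zero_le _
  · have hsub : ∀ k ∈ T, k ∈ Fintype.piFinset (fun i => Icc (k₀ i - (R : ℤ)) (k₀ i + R)) := by
      intro k hk
      rw [Fintype.mem_piFinset]
      intro i
      have h1 := abs_le.1 (h k hk k₀ hk₀ i)
      rw [mem_Icc]
      constructor <;> omega
    have hcard : (Fintype.piFinset (fun i => Icc (k₀ i - (R : ℤ)) (k₀ i + R))).card =
        (2 * R + 1) ^ Fintype.card ι := by
      rw [Fintype.card_piFinset]
      have h1 : ∀ i, (Icc (k₀ i - (R : ℤ)) (k₀ i + R)).card = 2 * R + 1 := by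
        intro i
        rw [Int.card_Icc]
        omega
      rw [prod_congr rfl (fun i _ => h1 i), prod_const, card_univ]
    refine ⟨(finite_toSet _).subset (fun k hk => mem_coe.2 (hsub k hk)), fun S hS => ?_⟩
    rw [← hcard]
    exact card_le_card (fun k hk => hsub k (hS k hk))

/-- **PIECE `LatLog`**. -/
theorem latLog (K : Type) [Field K] [NumberField K] : LatLog K := by
  classical
  intro a c₁ c₂ hc₁
  obtain ⟨T, C, hC, hT, _, hTn⟩ := exists_coord a
  obtain ⟨R, hR⟩ : ∃ R : ℕ, R = ⌈C * |Real.log c₂ - Real.log c₁|⌉₊ := ⟨_, rfl⟩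
  refine ⟨(2 * R + 1) ^ Fintype.card (InfinitePlace K), fun z hz => ?_⟩
  have key := box {k : InfinitePlace K → ℤ | ∀ v, c₁ ≤ ‖(E (a.el k) * z) v‖ ∧
    ‖(E (a.el k) * z) v‖ ≤ c₂} R (by
    intro k hk k' hk' i
    have h1 : ∀ k : InfinitePlace K → ℤ, (∀ v, c₁ ≤ ‖(E (a.el k) * z) v‖ ∧
        ‖(E (a.el k) * z) v‖ ≤ c₂) → ∀ v, Real.log c₁ ≤ lz (E (a.el k) * z) v ∧
        lz (E (a.el k) * z) v ≤ Real.log c₂ := by
      intro k hk v
      exact ⟨Real.log_le_log hc₁ (hk v).1, Real.log_le_log (hc₁.trans_le (hk v).1) (hk v).2⟩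
    have h2 : T (lz (E (a.el k) * z) - lz (E (a.el k') * z)) =
        fun i => (k i : ℝ) - (k' i : ℝ) := by
      rw [lz_mul a k z hz, lz_mul a k' z hz]
      have h3 : (∑ i, (k i : ℝ) • lv a i) + lz z - ((∑ i, (k' i : ℝ) • lv a i) + lz z) =
          ∑ i, ((fun i => (k i : ℝ) - (k' i : ℝ)) i) • lv a i := by
        rw [add_sub_add_right_eq_sub, ← sum_sub_distrib]
        refine sum_congr rfl fun i _ => ?_
        rw [← sub_smul]
      rw [h3, hT]
    have h4 : ‖lz (E (a.el k) * z) - lz (E (a.el k') * z)‖ ≤ |Real.log c₂ - Real.log c₁| := by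
      rw [pi_norm_le_iff_of_nonneg (abs_nonneg _)]
      intro v
      rw [Pi.sub_apply, Real.norm_eq_abs]
      have h5 := h1 k hk v
      have h6 := h1 k' hk' v
      refine le_trans ?_ (le_abs_self _)
      rw [abs_le]
      constructor <;> linarith
    have h5 := hTn (lz (E (a.el k) * z) - lz (E (a.el k') * z))
    rw [h2] at h5
    have h6 : |((k i : ℝ) - (k' i : ℝ))| ≤ R := by
      have h7 := norm_le_pi_norm (fun i => (k i : ℝ) - (k' i : ℝ)) i
      rw [Real.norm_eq_abs] at h7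
      refine h7.trans (h5.trans ((mul_le_mul_of_nonneg_left h4 hC).trans ?_))
      rw [hR]
      exact Nat.le_ceil _
    have h7 : (|((k i - k' i : ℤ) : ℝ)| : ℝ) ≤ R := by
      push_cast
      exact h6
    rw [← Int.cast_abs] at h7
    exact_mod_cast h7)
  exact ⟨key.1, fun S hS => key.2 S (fun k hk => hS k hk)⟩

end Pool.Agent.T9h47.NF
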