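import Mathlib
import Pool.Agent.T9h47.NF.LatLog

/-!
# Absorbers: integrality and norms, `AbsInt`, `AbsEx`
-/

set_option autoImplicit false
set_option linter.unusedSectionVars false

namespace Pool.Agent.T9h47.NF

open Finset NumberField Pool.Agent.T9h11.NF

variable {K : Type} [Field K] [NumberField K]

theorem nrm_E (x : K) : nrm (E x) = ((|Algebra.norm ℚ x| : ℚ) : ℝ) := by
  rw [← InfinitePlace.prod_eq_abs_norm]
  unfold nrm
  exact prod_congr rfl fun v _ => by rw [norm_E]

theorem nrm_mul (z w : Sp K) : nrm (z * w) = nrm z * nrm w := by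
  unfold nrm
  rw [← prod_mul_distrib]
  refine prod_congr rfl fun v _ => ?_
  rw [Pi.mul_apply, norm_mul, mul_pow]

theorem nrm_pos {x : K} (hx : x ≠ 0) : 0 < nrm (E x) := by
  unfold nrm
  exact prod_pos fun v _ => pow_pos (norm_pos_iff.2 (E_ne hx v)) _

theorem log_nrm {x : K} (hx : x ≠ 0) :
    Real.log (nrm (E x)) = ∑ v : InfinitePlace K, (v.mult : ℝ) * Real.log (v x) := by
  unfold nrm
  rw [Real.log_prod (fun v _ => pow_ne_zero _ (norm_ne_zero_iff.2 (E_ne hx v)))]
  refine sum_congr rfl fun v _ => ?_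
  rw [Real.log_pow, norm_E]

theorem coe_ne {x : 𝓞 K} (hx : x ≠ 0) : (x : K) ≠ 0 := by
  intro h
  exact hx (RingOfIntegers.coe_eq_zero_iff.1 h)

theorem nrm_unit {x : 𝓞 K} (hx : IsUnit x) : nrm (E (x : K)) = 1 := by
  rw [nrm_E]
  have h1 := isUnit_iff_norm.1 hx
  rw [RingOfIntegers.coe_norm] at h1
  rw [h1, Rat.cast_one]

theorem one_lt_nrm {x : 𝓞 K} (hx : x ≠ 0) (hu : ¬ IsUnit x) : 1 < nrm (E (x : K)) := by
  rw [nrm_E]
  have h1 : (|Algebra.norm ℚ (x : K)| : ℚ) = ((|Algebra.norm ℤ x| : ℤ) : ℚ) := by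
    rw [Int.cast_abs, Algebra.coe_norm_int]
  have h2 : Algebra.norm ℤ x ≠ 0 := by
    intro h
    exact hx (Algebra.norm_eq_zero_iff.1 h)
  have h3 : |Algebra.norm ℤ x| ≠ 1 := by
    intro h
    apply hu
    rw [isUnit_iff_norm, RingOfIntegers.coe_norm, h1, h, Int.cast_one]
  have h4 : 1 ≤ |Algebra.norm ℤ x| := Int.one_le_abs h2
  have h5 : 1 < |Algebra.norm ℤ x| := lt_of_le_of_ne h4 (Ne.symm h3)
  rw [h1]
  exact_mod_cast h5

/-- the unit of an index -/
noncomputable def un (a : Absb K) (i : InfinitePlace K) : (𝓞 K)ˣ :=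
  open Classical in if h : i = a.i₀ then 1 else (a.unit i h).unit

/-- **PIECE `AbsInt`**. -/
theorem absInt (K : Type) [Field K] [NumberField K] : AbsInt (K := K) := by
  classical
  intro a
  obtain ⟨T, C, hC, hT, hT', hTn⟩ := exists_coord a
  have hpi0 : a.pi ≠ 0 := a.ne a.i₀
  have hnu : ¬ IsUnit a.pi := by
    intro hu
    have hall : ∀ i, ∑ v : InfinitePlace K, (v.mult : ℝ) * lv a i v = 0 := by
      intro i
      have h1 : IsUnit (a.e i) := by
        by_cases h : i = a.i₀
        · rw [h]
          exact hu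
        · exact a.unit i h
      have h2 := log_nrm (coe_ne (a.ne i))
      rw [nrm_unit h1, Real.log_one] at h2
      exact h2.symm
    have h1 : ∑ v : InfinitePlace K, (v.mult : ℝ) * (1 : ℝ) = 0 := by
      have h2 : ∀ v : InfinitePlace K, (1 : ℝ) = ∑ i, T (fun _ => 1) i * lv a i v := by
        intro v
        have h3 := congrFun (hT' (fun _ => 1)) v
        rw [Finset.sum_apply] at h3
        exact h3.symm
      calc ∑ v : InfinitePlace K, (v.mult : ℝ) * (1 : ℝ)
          = ∑ v : InfinitePlace K, (v.mult : ℝ) * ∑ i, T (fun _ => 1) i * lv a i v :=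
            sum_congr rfl fun v _ => by rw [← h2 v]
        _ = ∑ i, T (fun _ => 1) i * ∑ v : InfinitePlace K, (v.mult : ℝ) * lv a i v := by
            simp only [mul_sum]
            rw [sum_comm]
            refine sum_congr rfl fun i _ => sum_congr rfl fun v _ => ?_
            ring
        _ = 0 := sum_eq_zero fun i _ => by rw [hall i, mul_zero]
    have h2 : 0 < ∑ v : InfinitePlace K, (v.mult : ℝ) * (1 : ℝ) := by
      refine sum_pos (fun v _ => ?_) ⟨a.i₀, mem_univ _⟩
      rw [mul_one]
      exact_mod_cast InfinitePlace.mult_pos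
    exact h2.ne' h1
  have h1lt := one_lt_nrm hpi0 hnu
  refine ⟨h1lt, hnu, fun k => ⟨?_, el_ne a k, ?_⟩⟩
  · have h1 : nrm (E (a.el k)) = ∏ i, nrm (E (a.e i : K)) ^ k i := by
      have h2 : ∀ x : K, nrm (E x) = ∏ v : InfinitePlace K, v x ^ v.mult := by
        intro x
        unfold nrm
        exact prod_congr rfl fun v _ => by rw [norm_E]
      have h3 : ∀ v : InfinitePlace K, v (a.el k) = ∏ i, v (a.e i : K) ^ k i := by
        intro v
        unfold Absb.el
        rw [map_prod]
        exact prod_congr rfl fun i _ => map_zpow₀ v _ _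
      rw [h2]
      calc ∏ v : InfinitePlace K, v (a.el k) ^ v.mult
          = ∏ v : InfinitePlace K, ∏ i, (v (a.e i : K) ^ k i) ^ v.mult :=
            prod_congr rfl fun v _ => by rw [h3, prod_pow]
        _ = ∏ i, ∏ v : InfinitePlace K, (v (a.e i : K) ^ v.mult) ^ k i := by
            rw [prod_comm]
            refine prod_congr rfl fun i _ => prod_congr rfl fun v _ => ?_
            rw [← zpow_natCast, ← zpow_mul, ← zpow_natCast, ← zpow_mul, mul_comm]
        _ = ∏ i, nrm (E (a.e i : K)) ^ k i :=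
            prod_congr rfl fun i _ => by rw [h2, prod_zpow]
    rw [h1]
    refine (prod_eq_single a.i₀ (fun i _ hi => ?_) (fun h => absurd (mem_univ _) h)).trans rfl
    rw [nrm_unit (a.unit i hi), one_zpow]
  · intro hk
    refine ⟨((∏ i, un a i ^ k i : (𝓞 K)ˣ) : 𝓞 K) * a.pi ^ (k a.i₀).toNat, ?_, ?_⟩
    · have h1 : (((∏ i, un a i ^ k i : (𝓞 K)ˣ) : 𝓞 K) : K) = ∏ i, ((un a i : 𝓞 K) : K) ^ k i := by
        have h2 : ∀ s : Finset (InfinitePlace K),
            (((∏ i ∈ s, un a i ^ k i : (𝓞 K)ˣ) : 𝓞 K) : K) =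
              ∏ i ∈ s, ((un a i : 𝓞 K) : K) ^ k i := by
          intro s
          induction s using Finset.induction_on with
          | empty =>
            rw [prod_empty, prod_empty, Units.val_one]
            exact map_one (algebraMap (𝓞 K) K)
          | insert i s hi ih =>
            rw [prod_insert hi, prod_insert hi, Units.val_mul, ← ih]
            have h3 : (((un a i ^ k i : (𝓞 K)ˣ) : 𝓞 K) : K) = ((un a i : 𝓞 K) : K) ^ k i :=
              NumberField.Units.coe_zpow (un a i) (k i)
            rw [← h3]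
            exact map_mul (algebraMap (𝓞 K) K) _ _
        exact h2 univ
      have h0 : ((((∏ i, un a i ^ k i : (𝓞 K)ˣ) : 𝓞 K) * a.pi ^ (k a.i₀).toNat : 𝓞 K) : K) =
          (∏ i, ((un a i : 𝓞 K) : K) ^ k i) * ((a.pi : 𝓞 K) : K) ^ (k a.i₀).toNat := by
        rw [← h1]
        exact (map_mul (algebraMap (𝓞 K) K) _ _).trans
          (congrArg _ (map_pow (algebraMap (𝓞 K) K) _ _))
      rw [h0]
      unfold Absb.el
      rw [← mul_prod_erase univ (fun i => ((un a i : 𝓞 K) : K) ^ k i) (mem_univ a.i₀),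
        ← mul_prod_erase univ (fun i => (a.e i : K) ^ k i) (mem_univ a.i₀)]
      have h2 : un a a.i₀ = 1 := by
        unfold un
        rw [dif_pos rfl]
      have h3 : ∏ i ∈ univ.erase a.i₀, ((un a i : 𝓞 K) : K) ^ k i =
          ∏ i ∈ univ.erase a.i₀, (a.e i : K) ^ k i := by
        refine prod_congr rfl fun i hi => ?_
        have h4 : (un a i : 𝓞 K) = a.e i := by
          unfold un
          rw [dif_neg (mem_erase.1 hi).1]
          rfl
        rw [h4]
      have h4 : ((a.pi : 𝓞 K) : K) ^ (k a.i₀).toNat = (a.e a.i₀ : K) ^ k a.i₀ := by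
        conv_rhs => rw [← Int.toNat_of_nonneg hk]
        rw [zpow_natCast]
        rfl
      show (((un a a.i₀ : 𝓞 K) : K) ^ k a.i₀ * ∏ i ∈ univ.erase a.i₀, ((un a i : 𝓞 K) : K) ^ k i) *
        ((a.pi : 𝓞 K) : K) ^ (k a.i₀).toNat = _
      rw [h3, h4, h2, Units.val_one]
      have h5 : ((1 : 𝓞 K) : K) = 1 := map_one (algebraMap (𝓞 K) K)
      rw [h5, one_zpow, one_mul, mul_comm]
    · rw [Ideal.span_singleton_mul_left_unit (Units.isUnit _), Ideal.span_singleton_pow]

/-- **PIECE `AbsEx`**. -/
theorem absEx (K : Type) [Field K] [NumberField K] : AbsEx K := by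
  classical
  intro p hp hpu
  obtain ⟨w₀, hw₀⟩ : ∃ w₀ : InfinitePlace K, w₀ = NumberField.Units.dirichletUnitTheorem.w₀ :=
    ⟨_, rfl⟩
  subst hw₀
  obtain ⟨e, he⟩ : ∃ e : InfinitePlace K → 𝓞 K, e = fun i =>
    if h : i = NumberField.Units.dirichletUnitTheorem.w₀ then p
    else (NumberField.Units.fundSystem K ((NumberField.Units.equivFinRank K).symm ⟨i, h⟩) : 𝓞 K) :=
    ⟨_, rfl⟩
  have he0 : e NumberField.Units.dirichletUnitTheorem.w₀ = p := by
    rw [he]
    exact dif_pos rfl
  have he1 : ∀ i (h : i ≠ NumberField.Units.dirichletUnitTheorem.w₀), e i =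
      (NumberField.Units.fundSystem K ((NumberField.Units.equivFinRank K).symm ⟨i, h⟩) : 𝓞 K) := by
    intro i h
    rw [he]
    exact dif_neg h
  have hunit : ∀ i, i ≠ NumberField.Units.dirichletUnitTheorem.w₀ → IsUnit (e i) := by
    intro i h
    rw [he1 i h]
    exact Units.isUnit _
  have hne : ∀ i, e i ≠ 0 := by
    intro i
    by_cases h : i = NumberField.Units.dirichletUnitTheorem.w₀
    · rw [h, he0]
      exact hp
    · exact (hunit i h).ne_zero
  refine ⟨⟨NumberField.Units.dirichletUnitTheorem.w₀, e, hne, hunit, ?_⟩, he0⟩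
  rw [Fintype.linearIndependent_iff]
  intro g hg
  have hgv : ∀ v : InfinitePlace K, ∑ i, g i * Real.log (v (e i : K)) = 0 := by
    intro v
    have h1 := congrFun hg v
    rw [Finset.sum_apply] at h1
    exact h1
  have hL : ∀ i, i ≠ NumberField.Units.dirichletUnitTheorem.w₀ →
      ∑ v : InfinitePlace K, (v.mult : ℝ) * Real.log (v (e i : K)) = 0 := by
    intro i hi
    rw [← log_nrm (coe_ne (hne i)), nrm_unit (hunit i hi), Real.log_one]
  have h1 : ∑ i, g i * ∑ v : InfinitePlace K, (v.mult : ℝ) * Real.log (v (e i : K)) = 0 := by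
    calc ∑ i, g i * ∑ v : InfinitePlace K, (v.mult : ℝ) * Real.log (v (e i : K))
        = ∑ v : InfinitePlace K, (v.mult : ℝ) * ∑ i, g i * Real.log (v (e i : K)) := by
          simp only [mul_sum]
          rw [sum_comm]
          refine sum_congr rfl fun i _ => sum_congr rfl fun v _ => ?_
          ring
      _ = 0 := sum_eq_zero fun v _ => by rw [hgv v, mul_zero]
  have h2 : g NumberField.Units.dirichletUnitTheorem.w₀ = 0 := by
    rw [sum_eq_single NumberField.Units.dirichletUnitTheorem.w₀
      (fun i _ hi => by rw [hL i hi, mul_zero]) (fun h => absurd (mem_univ _) h),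
      ← log_nrm (coe_ne (hne _)), he0] at h1
    rcases mul_eq_zero.1 h1 with h | h
    · exact h
    · exact absurd h (Real.log_pos (one_lt_nrm hp hpu)).ne'
  have hmax := NumberField.Units.isMaxRank_fundSystem K
  have h3 := (Fintype.linearIndependent_iff.1 hmax)
    (fun j => g (NumberField.Units.equivFinRank K j).1) (by
      funext w
      rw [Finset.sum_apply]
      show ∑ j, g (NumberField.Units.equivFinRank K j).1 *
        ((w.1.mult : ℝ) * Real.log (w.1 ((NumberField.Units.fundSystem K j : 𝓞 K) : K))) = 0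
      have h4 : ∑ j, g (NumberField.Units.equivFinRank K j).1 *
          Real.log (w.1 ((NumberField.Units.fundSystem K j : 𝓞 K) : K)) = 0 := by
        have h5 := hgv w.1
        rw [Fintype.sum_eq_add_sum_subtype_ne _ NumberField.Units.dirichletUnitTheorem.w₀, h2,
          zero_mul, zero_add] at h5
        rw [← h5, ← Equiv.sum_comp (NumberField.Units.equivFinRank K)]
        refine sum_congr rfl fun j _ => ?_
        rw [he1 _ (NumberField.Units.equivFinRank K j).2]
        congr 3
        exact congrArg (fun x : Fin _ => ((NumberField.Units.fundSystem K x : 𝓞 K) : K))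
          ((NumberField.Units.equivFinRank K).symm_apply_apply j).symm
      calc ∑ j, g (NumberField.Units.equivFinRank K j).1 *
          ((w.1.mult : ℝ) * Real.log (w.1 ((NumberField.Units.fundSystem K j : 𝓞 K) : K)))
          = (w.1.mult : ℝ) * ∑ j, g (NumberField.Units.equivFinRank K j).1 *
          Real.log (w.1 ((NumberField.Units.fundSystem K j : 𝓞 K) : K)) := by
            rw [mul_sum]
            exact sum_congr rfl fun j _ => by ring
        _ = 0 := by rw [h4, mul_zero])
  intro i
  by_cases h : i = NumberField.Units.dirichletUnitTheorem.w₀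
  · rw [h]
    exact h2
  · have h4 := h3 ((NumberField.Units.equivFinRank K).symm ⟨i, h⟩)
    rwa [Equiv.apply_symm_apply] at h4

end Pool.Agent.T9h47.NF
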