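import Mathlib
import Pool.Agent.T9h47.NF.LatLog

/-!
# Absorbers: tiles, `TileEx`
-/

set_option autoImplicit false
set_option linter.unusedSectionVars false

namespace Pool.Agent.T9h47.NF

open Finset NumberField Pool.Agent.T9h11.NF

/-- the hat function -/
noncomputable def hat (t : ℝ) : ℝ := max 0 (1 - |t|)

theorem hat_nonneg (t : ℝ) : 0 ≤ hat t := le_max_left _ _

theorem hat_le (t : ℝ) : hat t ≤ 1 := max_le zero_le_one (by linarith [abs_nonneg t])

theorem hat_lip (s t : ℝ) : |hat s - hat t| ≤ |s - t| := by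
  unfold hat
  refine (abs_max_sub_max_le_abs (1 - |s|) (1 - |t|) 0 |>.trans' ?_).trans ?_
  · rw [max_comm 0, max_comm 0]
  · have h1 : (1 - |s|) - (1 - |t|) = |t| - |s| := by ring
    rw [h1, abs_sub_comm s t]
    exact abs_abs_sub_abs_le t s

theorem hat_ne {t : ℝ} (h : hat t ≠ 0) : |t| < 1 := by
  by_contra hcon
  apply h
  unfold hat
  rw [max_eq_left]
  linarith [not_lt.1 hcon]

theorem hat_zero_of {t : ℝ} (h : 1 ≤ |t|) : hat t = 0 := by
  by_contra hcon
  exact absurd (hat_ne hcon) (not_lt.2 h)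

/-- the integer translates of the hat function -/
theorem hat_int (t : ℝ) (m : ℤ) (h : hat (t + m) ≠ 0) :
    m ∈ ({-⌊t⌋, -⌊t⌋ - 1} : Finset ℤ) := by
  have h1 := abs_lt.1 (hat_ne h)
  have h2 := Int.floor_le t
  have h3 := Int.lt_floor_add_one t
  have h4 : ((-⌊t⌋ - 2 : ℤ) : ℝ) < (m : ℝ) := by push_cast; linarith
  have h5 : (m : ℝ) < ((-⌊t⌋ + 1 : ℤ) : ℝ) := by push_cast; linarith
  have h6 : -⌊t⌋ - 2 < m := by exact_mod_cast h4
  have h7 : m < -⌊t⌋ + 1 := by exact_mod_cast h5
  rw [mem_insert, mem_singleton]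
  omega

theorem hat_sum (t : ℝ) : ∑ m ∈ ({-⌊t⌋, -⌊t⌋ - 1} : Finset ℤ), hat (t + m) = 1 := by
  have h2 := Int.floor_le t
  have h3 := Int.lt_floor_add_one t
  rw [sum_pair (by omega)]
  have e1 : t + ((-⌊t⌋ : ℤ) : ℝ) = t - ⌊t⌋ := by push_cast; ring
  have e2 : t + ((-⌊t⌋ - 1 : ℤ) : ℝ) = t - ⌊t⌋ - 1 := by push_cast; ring
  rw [e1, e2]
  unfold hat
  rw [abs_of_nonneg (by linarith : (0 : ℝ) ≤ t - ⌊t⌋),
    abs_of_nonpos (by linarith : t - ⌊t⌋ - 1 ≤ 0), max_eq_right (by linarith),
    max_eq_right (by linarith)]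
  ring

/-- products of functions with values in `[0,1]` -/
theorem prod_lip {ι : Type} (s : Finset ι) (f g : ι → ℝ) (hf : ∀ i, 0 ≤ f i ∧ f i ≤ 1)
    (hg : ∀ i, 0 ≤ g i ∧ g i ≤ 1) : |∏ i ∈ s, f i - ∏ i ∈ s, g i| ≤ ∑ i ∈ s, |f i - g i| := by
  classical
  induction s using Finset.induction_on with
  | empty => simp
  | insert i s hi ih =>
    rw [prod_insert hi, prod_insert hi, sum_insert hi]
    have h1 : f i * ∏ j ∈ s, f j - g i * ∏ j ∈ s, g j =
        (f i - g i) * ∏ j ∈ s, f j + g i * (∏ j ∈ s, f j - ∏ j ∈ s, g j) := by ring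
    rw [h1]
    refine (abs_add_le _ _).trans (add_le_add ?_ ?_)
    · rw [abs_mul]
      have h2 : |∏ j ∈ s, f j| ≤ 1 := by
        rw [abs_of_nonneg (prod_nonneg fun j _ => (hf j).1)]
        exact prod_le_one (fun j _ => (hf j).1) (fun j _ => (hf j).2)
      exact mul_le_of_le_one_right (abs_nonneg _) h2
    · rw [abs_mul]
      have h2 : |g i| ≤ 1 := by
        rw [abs_of_nonneg (hg i).1]
        exact (hg i).2
      exact (mul_le_of_le_one_left (abs_nonneg _) h2).trans ih

/-- the logarithm above a positive number is Lipschitz -/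
theorem log_max_lip {c : ℝ} (hc : 0 < c) (s t : ℝ) :
    |Real.log (max s c) - Real.log (max t c)| ≤ 1 / c * |s - t| := by
  have key : ∀ s t : ℝ, Real.log (max s c) - Real.log (max t c) ≤ 1 / c * |s - t| := by
    intro s t
    have h1 : c ≤ max s c := le_max_right _ _
    have h2 : c ≤ max t c := le_max_right _ _
    have h3 : 0 < max s c := hc.trans_le h1
    have h4 : 0 < max t c := hc.trans_le h2
    rw [← Real.log_div h3.ne' h4.ne']
    refine (Real.log_le_sub_one_of_pos (div_pos h3 h4)).trans ?_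
    have h5 : max s c / max t c - 1 = (max s c - max t c) / max t c := by
      field_simp
    rw [h5, div_le_iff₀ h4]
    have h6 : max s c - max t c ≤ |s - t| := by
      refine (le_abs_self _).trans ?_
      exact abs_max_sub_max_le_abs s t c
    have h7 : 1 / c * |s - t| * max t c = |s - t| * (max t c / c) := by ring
    rw [h7]
    have h8 : 1 ≤ max t c / c := by
      rw [le_div_iff₀ hc, one_mul]
      exact h2
    calc max s c - max t c ≤ |s - t| := h6
      _ = |s - t| * 1 := (mul_one _).symm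
      _ ≤ |s - t| * (max t c / c) := mul_le_mul_of_nonneg_left h8 (abs_nonneg _)
  rw [abs_le]
  have h1 := key s t
  have h2 := key t s
  rw [abs_sub_comm t s] at h2
  constructor <;> linarith

/-- **PIECE `TileEx`**. -/
theorem tileEx (K : Type) [Field K] [NumberField K] : TileEx K := by
  classical
  intro a
  obtain ⟨T, C, hC, hT, hT', hTn⟩ := exists_coord a
  obtain ⟨M, hM⟩ : ∃ M : ℝ, M = ∑ i, ‖lv a i‖ := ⟨_, rfl⟩
  have hM0 : 0 ≤ M := by
    rw [hM]
    exact sum_nonneg fun i _ => norm_nonneg _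
  -- bounded coordinates give bounded vectors
  have hbd : ∀ y : InfinitePlace K → ℝ, (∀ i, |T y i| ≤ 1) → ∀ v, |y v| ≤ M := by
    intro y hy v
    have h1 : ‖y‖ ≤ M := by
      conv_lhs => rw [← hT' y]
      rw [hM]
      refine (norm_sum_le _ _).trans (sum_le_sum fun i _ => ?_)
      rw [norm_smul, Real.norm_eq_abs]
      exact mul_le_of_le_one_left (norm_nonneg _) (hy i)
    have h2 := norm_le_pi_norm y v
    rw [Real.norm_eq_abs] at h2
    exact h2.trans h1
  obtain ⟨c, hc⟩ : ∃ c : ℝ, c = Real.exp (-(M + 1)) := ⟨_, rfl⟩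
  have hc0 : 0 < c := by rw [hc]; exact Real.exp_pos _
  have hlc : Real.log c = -(M + 1) := by rw [hc, Real.log_exp]
  obtain ⟨yy, hyy⟩ : ∃ yy : Sp K → InfinitePlace K → ℝ,
    ∀ z v, yy z v = Real.log (max ‖z v‖ c) := ⟨_, fun _ _ => rfl⟩
  obtain ⟨ρ, hρ⟩ : ∃ ρ : Sp K → ℝ, ∀ z, ρ z = ∏ i, hat (T (yy z) i) := ⟨_, fun _ => rfl⟩
  have hne : ∀ z, ρ z ≠ 0 → ∀ v, c < ‖z v‖ ∧ |Real.log ‖z v‖| ≤ M := by
    intro z hz v
    rw [hρ, prod_ne_zero_iff] at hz
    have h1 := hbd (yy z) (fun i => (hat_ne (hz i (mem_univ _))).le) v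
    rw [hyy] at h1
    have h2 : c < ‖z v‖ := by
      by_contra hcon
      rw [max_eq_right (not_lt.1 hcon), hlc, abs_neg, abs_of_pos (by linarith)] at h1
      linarith
    rw [max_eq_left h2.le] at h1
    exact ⟨h2, h1⟩
  -- the formula with the true logarithm
  have hform : ∀ z : Sp K, (∀ v, z v ≠ 0) → ρ z = ∏ i, hat (T (lz z) i) := by
    intro z hz
    by_cases h : ∀ v, c ≤ ‖z v‖
    · have h1 : yy z = lz z := by
        funext v
        rw [hyy, max_eq_left (h v)]
        rfl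
      rw [hρ, h1]
    · push Not at h
      obtain ⟨v, hv⟩ := h
      have h1 : ρ z = 0 := by
        by_contra hcon
        exact absurd (hne z hcon v).1 (not_lt.2 hv.le)
      rw [h1]
      symm
      by_contra hcon
      have hcon' := prod_ne_zero_iff.1 hcon
      have h2 := hbd (lz z) (fun i => (hat_ne (hcon' i (mem_univ _))).le) v
      have h3 : lz z v < -(M + 1) := by
        show Real.log ‖z v‖ < -(M + 1)
        rw [← hlc]
        exact Real.log_lt_log (norm_pos_iff.2 (hz v)) hv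
      have h4 := neg_abs_le (lz z v)
      linarith
  refine ⟨ρ, ⟨?_, ?_, ?_, ?_⟩, ?_⟩
  · intro z
    rw [hρ]
    exact ⟨prod_nonneg fun i _ => hat_nonneg _,
      prod_le_one (fun i _ => hat_nonneg _) (fun i _ => hat_le _)⟩
  · refine ⟨∑ _i : InfinitePlace K, C * (1 / c), fun z z' => ?_⟩
    rw [hρ, hρ]
    refine (prod_lip _ _ _ (fun i => ⟨hat_nonneg _, hat_le _⟩)
      (fun i => ⟨hat_nonneg _, hat_le _⟩)).trans ?_
    rw [sum_mul]
    refine sum_le_sum fun i _ => (hat_lip _ _).trans ?_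
    have h1 : T (yy z) i - T (yy z') i = T (yy z - yy z') i := by rw [map_sub]; rfl
    rw [h1]
    have h2 := norm_le_pi_norm (T (yy z - yy z')) i
    rw [Real.norm_eq_abs] at h2
    refine h2.trans ((hTn _).trans ?_)
    rw [mul_assoc]
    refine mul_le_mul_of_nonneg_left ?_ hC
    rw [pi_norm_le_iff_of_nonneg (by positivity)]
    intro v
    rw [Pi.sub_apply, Real.norm_eq_abs, hyy, hyy]
    refine (log_max_lip hc0 _ _).trans ?_
    refine mul_le_mul_of_nonneg_left ?_ (by positivity)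
    exact (abs_norm_sub_norm_le _ _).trans (norm_le_pi_norm (z - z') v)
  · refine ⟨c, Real.exp M, hc0, fun z hz v => ?_⟩
    obtain ⟨h1, h2⟩ := hne z hz v
    refine ⟨h1.le, ?_⟩
    rw [← Real.log_le_iff_le_exp (hc0.trans h1)]
    exact (le_abs_self _).trans h2
  · refine ⟨1, ⟨fun v => one_ne_zero, fun v _ => Complex.one_im⟩, ?_⟩
    rw [hform 1 (fun v => one_ne_zero)]
    have h1 : lz (1 : Sp K) = 0 := by
      funext v
      show Real.log ‖(1 : ℂ)‖ = 0
      rw [norm_one, Real.log_one]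
    rw [h1, map_zero]
    have h2 : hat 0 = 1 := by
      unfold hat
      rw [abs_zero, sub_zero, max_eq_right zero_le_one]
    have h3 : ∀ i : InfinitePlace K, hat ((0 : InfinitePlace K → ℝ) i) = 1 := fun _ => h2
    rw [prod_congr rfl (fun i _ => h3 i), prod_const_one]
    exact one_ne_zero
  · intro z hz
    refine ⟨Fintype.piFinset (fun i => {-⌊T (lz z) i⌋, -⌊T (lz z) i⌋ - 1}), ?_, ?_⟩
    all_goals
      have hk : ∀ k : InfinitePlace K → ℤ, ρ (E (a.el k) * z) =
          ∏ i, hat (T (lz z) i + k i) := by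
        intro k
        rw [hform _ (fun v => by
          show E (a.el k) v * z v ≠ 0
          exact mul_ne_zero (E_ne (el_ne a k) v) (hz v)), lz_mul a k z hz, map_add,
          hT (fun i => (k i : ℝ))]
        refine prod_congr rfl fun i _ => ?_
        rw [Pi.add_apply, add_comm]
    · intro k hne
      rw [hk, prod_ne_zero_iff] at hne
      rw [Fintype.mem_piFinset]
      exact fun i => hat_int _ _ (hne i (mem_univ _))
    · rw [sum_congr rfl (fun k _ => hk k)]
      rw [← prod_univ_sum (fun i => ({-⌊T (lz z) i⌋, -⌊T (lz z) i⌋ - 1} : Finset ℤ))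
        (fun i m => hat (T (lz z) i + (m : ℝ)))]
      exact prod_eq_one fun i _ => hat_sum _

end Pool.Agent.T9h47.NF
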